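import Mathlib

namespace Pool.Agent.Results.MP_4dddeb_co.Four

open Filter Topology

/-- H is a minor of G (branch set form). -/
def IsMinor {k n : ℕ} (H : SimpleGraph (Fin k)) (G : SimpleGraph (Fin n)) : Prop :=
  ∃ B : Fin k → Set (Fin n), (∀ a, (G.induce (B a)).Connected) ∧
    (∀ a b, a ≠ b → Disjoint (B a) (B b)) ∧
    ∀ a b, H.Adj a b → ∃ x ∈ B a, ∃ y ∈ B b, G.Adj x y

def Suitable (F : Set (Σ k : ℕ, SimpleGraph (Fin k))) : Prop :=
  F.Nonempty ∧ ∀ H ∈ F, ∃ a b, H.2.Adj a b

def Free (F : Set (Σ k : ℕ, SimpleGraph (Fin k))) {n : ℕ} (G : SimpleGraph (Fin n)) : Prop :=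
  ∀ H ∈ F, ¬ IsMinor H.2 G

def EdgeMax (F : Set (Σ k : ℕ, SimpleGraph (Fin k))) {n : ℕ} (G : SimpleGraph (Fin n)) : Prop :=
  Free F G ∧ ∀ x y, x ≠ y → ¬ G.Adj x y → ¬ Free F (G ⊔ SimpleGraph.edge x y)

def E (F : Set (Σ k : ℕ, SimpleGraph (Fin k))) (n : ℕ) : Set ℕ :=
  {e | ∃ G : SimpleGraph (Fin n), EdgeMax F G ∧ G.edgeSet.ncard = e}

noncomputable def gap (F : Set (Σ k : ℕ, SimpleGraph (Fin k))) (n : ℕ) : ℕ :=
  sSup (E F n) - sInf (E F n)

theorem result : ∃ F : Set (Σ k : ℕ, SimpleGraph (Fin k)), Suitable F ∧
    (∀ C : ℤ, ∃ n : ℕ, 1 ≤ n ∧ C < (gap F n : ℤ) - ((E F n).ncard : ℤ)) ∧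
    (∃ ε : ℝ, 0 < ε ∧ ∀ᶠ n : ℕ in atTop, ε ≤ (gap F n : ℝ) / n) ∧
    ¬ Tendsto (fun n : ℕ => ((E F n).ncard : ℝ) / (gap F n : ℝ)) atTop (𝓝 1) := by
  classical
  let F : Set (Σ k : ℕ, SimpleGraph (Fin k)) := {H | H.1 = 4 ∧ H.2.Connected}
  let C : ∀ {n : ℕ}, SimpleGraph (Fin n) → Fin n → Finset (Fin n) :=
    fun G x => Finset.univ.filter fun y => G.Reachable x y
  have mC : ∀ {n : ℕ} (G : SimpleGraph (Fin n)) x y, y ∈ C G x ↔ G.Reachable x y := by
    intro n G x y; simp [C]
  have free : ∀ {n : ℕ} (G : SimpleGraph (Fin n)), Free F G ↔ ∀ x, (C G x).card ≤ 3 := by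
    intro n G
    constructor
    · intro hf x0
      by_contra hlt
      have grow : ∀ S : Finset (Fin n), x0 ∈ S → S.card ≤ 3 → ∃ x ∈ S, ∃ y, y ∉ S ∧ G.Adj x y := by
        intro S h0 hS
        obtain ⟨z, hz, hzS⟩ := Finset.exists_mem_notMem_of_card_lt_card
          (s := S) (t := C G x0) (by omega)
        obtain ⟨p⟩ := (mC G x0 z).1 hz
        obtain ⟨d, -, h1, h2⟩ := p.exists_boundary_dart (S : Set (Fin n)) (by simpa) (by simpa)
        exact ⟨d.fst, by simpa using h1, d.snd, by simpa using h2, d.adj⟩
      obtain ⟨a1, ha1, x1, n1, e1⟩ := grow {x0} (by simp) (by simp)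
      obtain ⟨a2, ha2, x2, n2, e2⟩ := grow {x0, x1} (by simp) (Finset.card_le_two.trans (by norm_num))
      obtain ⟨a3, ha3, x3, n3, e3⟩ := grow {x0, x1, x2} (by simp) Finset.card_le_three
      simp only [Finset.mem_insert, Finset.mem_singleton, not_or] at ha1 n1 ha2 n2 ha3 n3
      let v : Fin 4 → Fin n := ![x0, x1, x2, x3]
      have hv : Function.Injective v := by
        intro a b hab
        fin_cases a <;> fin_cases b <;> simp [v] at hab ⊢ <;> tauto
      have r1 : (G.comap v).Reachable 0 1 := SimpleGraph.Adj.reachable (by simpa [v, ← ha1])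
      have r2 : (G.comap v).Reachable 0 2 := by
        rcases ha2 with h | h
        · exact SimpleGraph.Adj.reachable (by simpa [v, ← h])
        · exact r1.trans (SimpleGraph.Adj.reachable (by simpa [v, ← h]))
      have r3 : (G.comap v).Reachable 0 3 := by
        rcases ha3 with h | h | h
        · exact SimpleGraph.Adj.reachable (by simpa [v, ← h])
        · exact r1.trans (SimpleGraph.Adj.reachable (by simpa [v, ← h]))
        · exact r2.trans (SimpleGraph.Adj.reachable (by simpa [v, ← h]))
      have r : ∀ a, (G.comap v).Reachable 0 a := by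
        intro a
        fin_cases a
        exacts [SimpleGraph.Reachable.refl _, r1, r2, r3]
      refine hf ⟨4, G.comap v⟩ ⟨rfl, ⟨fun a b => (r a).symm.trans (r b)⟩⟩
        ⟨fun a => {v a}, fun a => ?_, fun a b hab => ?_, fun a b hab => ⟨_, rfl, _, rfl, hab⟩⟩
      · exact ⟨fun x y => by rw [Subsingleton.elim x y]⟩
      · simpa using hv.ne hab
    · rintro h ⟨k, H⟩ ⟨rfl, hH⟩ ⟨B, hB, hd, hE⟩
      have hne : ∀ a, ∃ x, x ∈ B a := fun a => by
        obtain ⟨⟨x, hx⟩⟩ := (hB a).nonempty
        exact ⟨x, hx⟩
      choose v hv using hne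
      have hin : ∀ a, ∀ x ∈ B a, G.Reachable (v a) x := fun a x hx =>
        ((hB a).preconnected ⟨_, hv a⟩ ⟨_, hx⟩).map (SimpleGraph.Embedding.induce (B a)).toHom
      have hr : ∀ a b, H.Reachable a b → G.Reachable (v a) (v b) := by
        rintro a b ⟨p⟩
        induction p with
        | nil => rfl
        | cons e p ih =>
          obtain ⟨x, hx, y, hy, hxy⟩ := hE _ _ e
          exact ((hin _ x hx).trans hxy.reachable).trans ((hin _ y hy).symm.trans ih)
      have hi : Function.Injective v := by
        intro a b hab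
        by_contra hn
        exact Set.disjoint_left.1 (hd a b hn) (hv a) (hab ▸ hv b)
      have h4 : (Finset.univ.image v).card ≤ (C G (v 0)).card := by
        apply Finset.card_le_card
        intro y hy
        obtain ⟨a, -, rfl⟩ := Finset.mem_image.1 hy
        exact (mC _ _ _).2 (hr _ _ (hH.preconnected _ _))
      rw [Finset.card_image_of_injective _ hi] at h4
      have := h (v 0)
      simp at h4
      omega
  have add : ∀ {n : ℕ} (G : SimpleGraph (Fin n)) x y u w,
      (G ⊔ SimpleGraph.edge x y).Reachable u w →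
        G.Reachable u w ∨ G.Reachable x w ∨ G.Reachable y w := by
    rintro n G x y u w ⟨p⟩
    induction p with
    | nil => exact Or.inl (SimpleGraph.Reachable.refl _)
    | @cons a b c e p ih =>
      rcases ih with h | h
      · rcases e with e | e
        · exact Or.inl (e.reachable.trans h)
        · rw [SimpleGraph.edge_adj] at e
          rcases e.1 with ⟨-, rfl⟩ | ⟨-, rfl⟩
          · exact Or.inr (Or.inr h)
          · exact Or.inr (Or.inl h)
      · exact Or.inr h
  have big : ∀ {n : ℕ} (G : SimpleGraph (Fin n)), EdgeMax F G → ∀ x y, x ≠ y → ¬ G.Adj x y →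
      4 ≤ (C G x ∪ C G y).card := by
    intro n G hG x y hxy hn
    by_contra hlt
    apply hG.2 x y hxy hn
    rw [free]
    intro u
    by_cases hu : G.Reachable x u ∨ G.Reachable y u
    · refine le_trans (Finset.card_le_card (t := C G x ∪ C G y) fun w hw => ?_) (by omega)
      rw [Finset.mem_union, mC, mC]
      rcases add G x y u w ((mC _ _ _).1 hw) with h | h
      · exact hu.imp (fun h' => h'.trans h) fun h' => h'.trans h
      · exact h
    · refine le_trans (Finset.card_le_card (t := C G u) fun w hw => ?_) ((free G).1 hG.1 u)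
      rw [mC] at hw ⊢
      rcases add G x y w u hw.symm with h | h
      · exact h.symm
      · exact absurd h hu
  have deg : ∀ {n : ℕ} (G : SimpleGraph (Fin n)), (∀ x y, x ≠ y → G.Reachable x y → G.Adj x y) →
      2 * G.edgeSet.ncard + n = ∑ x, (C G x).card := by
    intro n G hG
    have h1 : ∀ x, (C G x).card = G.degree x + 1 := by
      intro x
      have : C G x = insert x (G.neighborFinset x) := by
        ext y
        rw [mC, Finset.mem_insert, SimpleGraph.mem_neighborFinset]
        constructor
        · intro h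
          by_cases hxy : y = x
          · exact Or.inl hxy
          · exact Or.inr (hG x y (Ne.symm hxy) h)
        · rintro (rfl | h)
          · rfl
          · exact h.reachable
      rw [this, Finset.card_insert_of_notMem (by simp), SimpleGraph.card_neighborFinset_eq_degree]
    simp only [h1, Finset.sum_add_distrib, SimpleGraph.sum_degrees_eq_twice_card_edges]
    rw [← SimpleGraph.coe_edgeFinset, Set.ncard_coe_finset]
    simp
  have up : ∀ n, ∀ e ∈ E F n, e ≤ n ∧ (e + 1 = n ∨ (2 * e) % 3 = n % 3) := by
    rintro n e ⟨G, hG, rfl⟩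
    have h3 := (free G).1 hG.1
    have same : ∀ x y, G.Reachable x y → C G x = C G y := by
      intro x y h
      ext z
      rw [mC, mC]
      exact ⟨fun h' => h.symm.trans h', fun h' => h.trans h'⟩
    have cl : ∀ x y, x ≠ y → G.Reachable x y → G.Adj x y := by
      intro x y hxy h
      by_contra hn
      have := big G hG x y hxy hn
      rw [← same x y h, Finset.union_self] at this
      have := h3 x
      omega
    have hd := deg G cl
    have pos : ∀ x, 1 ≤ (C G x).card := fun x =>
      Finset.card_pos.2 ⟨x, (mC _ _ _).2 (SimpleGraph.Reachable.refl _)⟩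
    refine ⟨?_, ?_⟩
    · have : ∑ x, (C G x).card ≤ ∑ _x : Fin n, 3 := Finset.sum_le_sum fun x _ => h3 x
      simp at this
      omega
    by_cases h1 : ∃ x, (C G x).card = 1
    · left
      obtain ⟨x, hx⟩ := h1
      have oth : ∀ y, y ≠ x → (C G y).card = 3 := by
        intro y hy
        have hn : ¬ G.Adj x y := by
          intro h
          have : ({x, y} : Finset (Fin n)) ⊆ C G x := by
            intro z hz
            rw [mC]
            rcases Finset.mem_insert.1 hz with rfl | hz
            · rfl
            · rw [Finset.mem_singleton.1 hz]; exact h.reachable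
          have := Finset.card_le_card this
          rw [Finset.card_pair (Ne.symm hy)] at this
          omega
        have := big G hG x y (Ne.symm hy) hn
        have := Finset.card_union_le (C G x) (C G y)
        have := h3 y
        omega
      rw [← Finset.add_sum_erase _ _ (Finset.mem_univ x), hx,
        Finset.sum_congr rfl fun y hy => oth y (Finset.ne_of_mem_erase hy)] at hd
      have := x.pos
      simp at hd
      omega
    · right
      have key : 3 ∣ ∑ x, ((C G x).card + 1) := by
        rw [← Finset.sum_fiberwise_of_maps_to (g := fun x => C G x)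
          (t := Finset.univ.image fun x => C G x)
          (fun x _ => Finset.mem_image_of_mem _ (Finset.mem_univ x))]
        refine Finset.dvd_sum fun S hS => ?_
        obtain ⟨x, -, rfl⟩ := Finset.mem_image.1 hS
        have hf : (Finset.univ.filter fun y => C G y = C G x) = C G x := by
          ext y
          simp only [Finset.mem_filter, Finset.mem_univ, true_and]
          constructor
          · intro h
            rw [← h, mC]
          · intro h
            exact (same x y ((mC _ _ _).1 h)).symm
        rw [Finset.sum_congr rfl (g := fun _ => (C G x).card + 1)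
          fun y hy => by rw [(Finset.mem_filter.1 hy).2], hf, Finset.sum_const, smul_eq_mul]
        have := h3 x
        have := pos x
        have : (C G x).card ≠ 1 := fun h => h1 ⟨x, h⟩
        have : (C G x).card = 2 ∨ (C G x).card = 3 := by omega
        rcases this with h | h <;> rw [h] <;> norm_num
      rw [Finset.sum_add_distrib, ← hd] at key
      simp at key
      omega
  have ex : ∀ b c : ℕ, b + 3 * c ∈ E F (3 * c + 2 * b) := by
    intro b c
    let T := (Fin c × Fin 3) ⊕ (Fin b × Fin 2)
    let e : Fin (3 * c + 2 * b) ≃ T := Fintype.equivOfCardEq (by simp [T]; ring)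
    let g : T → Fin c ⊕ Fin b := Sum.map Prod.fst Prod.fst
    let G : SimpleGraph (Fin (3 * c + 2 * b)) :=
      { Adj := fun x y => x ≠ y ∧ g (e x) = g (e y)
        symm := ⟨fun x y h => ⟨h.1.symm, h.2.symm⟩⟩
        loopless := ⟨fun x h => h.1 rfl⟩ }
    have hr : ∀ x y, G.Reachable x y ↔ g (e x) = g (e y) := by
      intro x y
      constructor
      · rintro ⟨p⟩
        induction p with
        | nil => rfl
        | cons h p ih => exact h.2.trans ih
      · intro h
        by_cases hxy : x = y
        · subst hxy; rfl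
        · exact SimpleGraph.Adj.reachable ⟨hxy, h⟩
    have hc : ∀ t : T, (C G (e.symm t)).card = Sum.elim (fun _ => 3) (fun _ => 2) t := by
      intro t
      have : (C G (e.symm t)).card = (Finset.univ.filter fun s : T => g t = g s).card := by
        apply Finset.card_equiv e
        intro y
        simp [mC, hr]
      rw [this, Finset.card_filter, Fintype.sum_sum_type]
      rcases t with ⟨i, j⟩ | ⟨i, j⟩ <;> simp [g] <;>
        rw [Finset.card_filter, Fintype.sum_prod_type_right] <;> simp
    have hc' : ∀ x, 2 ≤ (C G x).card ∧ (C G x).card ≤ 3 := by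
      intro x
      have := hc (e x)
      rw [e.symm_apply_apply] at this
      rw [this]
      rcases e x with t | t <;> simp
    refine ⟨G, ⟨(free G).2 fun x => (hc' x).2, fun x y hxy hn hf => ?_⟩, ?_⟩
    · have h3 := (free _).1 hf x
      have hg : g (e x) ≠ g (e y) := fun h => hn ⟨hxy, h⟩
      have hdis : Disjoint (C G x) (C G y) := by
        rw [Finset.disjoint_left]
        intro z h1 h2
        rw [mC, hr] at h1 h2
        exact hg (h1.trans h2.symm)
      have hsub : C G x ∪ C G y ⊆ C (G ⊔ SimpleGraph.edge x y) x := by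
        intro z hz
        rw [mC]
        rcases Finset.mem_union.1 hz with h | h
        · exact ((mC _ _ _).1 h).mono le_sup_left
        · refine SimpleGraph.Reachable.trans (v := y) (SimpleGraph.Adj.reachable (Or.inr ?_))
            (((mC _ _ _).1 h).mono le_sup_left)
          rw [SimpleGraph.edge_adj]
          exact ⟨Or.inl ⟨rfl, rfl⟩, hxy⟩
      have := Finset.card_le_card hsub
      rw [Finset.card_union_of_disjoint hdis] at this
      have := (hc' x).1
      have := (hc' y).1
      omega
    · have hd := deg G fun x y hxy h => ⟨hxy, (hr x y).1 h⟩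
      rw [← Equiv.sum_comp e.symm] at hd
      simp only [hc] at hd
      rw [Fintype.sum_sum_type] at hd
      simp at hd
      omega
  have bdd : ∀ n, BddAbove (E F n) := fun n => ⟨n, fun e he => (up n e he).1⟩
  have low : ∀ n, 2 ≤ n → n ≤ 2 * gap F n + 7 := by
    intro n hn
    obtain ⟨b, c, h1, h2⟩ : ∃ b c, n = 3 * c + 2 * b ∧ b ≤ 2 :=
      ⟨(2 * n) % 3, (n - 2 * ((2 * n) % 3)) / 3, by omega, by omega⟩
    obtain ⟨b', c', h1', h2'⟩ : ∃ b c, n = 3 * c + 2 * b ∧ c ≤ 1 :=
      ⟨(n - 3 * (n % 2)) / 2, n % 2, by omega, by omega⟩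
    have e1 := le_csSup (bdd n) (h1 ▸ ex b c)
    have e2 := Nat.sInf_le (s := E F n) (h1' ▸ ex b' c')
    unfold gap
    omega
  have few : ∀ n, (E F n).ncard ≤ gap F n / 3 + 2 := by
    intro n
    have h1 : (E F n \ {n - 1}).ncard ≤ (Finset.range (gap F n / 3 + 1) : Set ℕ).ncard := by
      refine Set.ncard_le_ncard_of_injOn (fun e => (e - sInf (E F n)) / 3) ?_ ?_ (Set.toFinite _)
      · intro e he
        have := le_csSup (bdd n) he.1
        simp only [Finset.coe_range, Set.mem_Iio, gap]
        omega
      · intro e he e' he' h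
        have := Nat.sInf_le he.1
        have := Nat.sInf_le he'.1
        have := (up n e he.1).2
        have := (up n e' he'.1).2
        have : e ≠ n - 1 := he.2
        have : e' ≠ n - 1 := he'.2
        simp only at h
        omega
    rw [Set.ncard_coe_finset, Finset.card_range] at h1
    have h2 := Set.ncard_le_ncard_sdiff_add_ncard (E F n) {n - 1}
    rw [Set.ncard_singleton] at h2
    omega
  refine ⟨F, ⟨⟨⟨4, ⊤⟩, rfl, SimpleGraph.connected_top⟩, ?_⟩, fun K => ?_, ⟨1 / 4, by norm_num, ?_⟩,
    fun ht => ?_⟩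
  · rintro ⟨k, H⟩ ⟨rfl, hH⟩
    obtain ⟨p⟩ := hH.preconnected (0 : Fin 4) (1 : Fin 4)
    cases p with
    | cons h p => exact ⟨_, _, h⟩
  · refine ⟨3 * K.toNat + 30, by omega, ?_⟩
    have := low (3 * K.toNat + 30) (by omega)
    have := few (3 * K.toNat + 30)
    omega
  · filter_upwards [eventually_ge_atTop 14] with n hn
    have h1 : n ≤ 4 * gap F n := by have := low n (by omega); omega
    have h2 : (n : ℝ) ≤ 4 * gap F n := by exact_mod_cast h1
    have h3 : (0 : ℝ) < n := by exact_mod_cast (by omega : 0 < n)
    rw [le_div_iff₀ h3]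
    linarith
  · obtain ⟨n, h1, hn⟩ := ((ht.eventually (lt_mem_nhds (by norm_num : (1 / 2 : ℝ) < 1))).and
      (eventually_ge_atTop 40)).exists
    have h2 := low n (by omega)
    have h3 := few n
    have h4 : 2 * (E F n).ncard ≤ gap F n := by omega
    have h5 : 2 * ((E F n).ncard : ℝ) ≤ gap F n := by exact_mod_cast h4
    have h6 : (0 : ℝ) < gap F n := by exact_mod_cast (by omega : 0 < gap F n)
    rw [lt_div_iff₀ h6] at h1
    linarith

end Pool.Agent.Results.MP_4dddeb_co.Four
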